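import Pool.Agent.Helper29.H2.St3

set_option autoImplicit false

namespace Pool.Agent.Helper29.H2

open Finset MeasureTheory
open Pool.Agent.Helper27.BG

/-- digits of a concatenation -/
theorem dg_concat_D5 (b l X Y i : ℕ) (hX : X < 2 ^ (b * l)) :
    dg b (X + 2 ^ (b * l) * Y) i = if i < l then dg b X i else dg b Y (i - l) := by
  unfold dg
  by_cases h : i < l
  · rw [if_pos h]
    obtain ⟨k, rfl⟩ : ∃ k, l = i + 1 + k := ⟨l - (i + 1), by omega⟩
    have h1 : X + 2 ^ (b * (i + 1 + k)) * Y = X + 2 ^ (b * i) * (2 ^ b * (2 ^ (b * k) * Y)) := by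
      have : b * (i + 1 + k) = b * i + b + b * k := by ring
      rw [this, pow_add, pow_add]
      ring
    rw [h1, Nat.add_mul_div_left _ _ (by positivity), Nat.add_mul_mod_self_left]
  · rw [if_neg h]
    obtain ⟨k, rfl⟩ : ∃ k, i = l + k := ⟨i - l, by omega⟩
    have h1 : (2 : ℕ) ^ (b * (l + k)) = 2 ^ (b * l) * 2 ^ (b * k) := by
      rw [← pow_add]
      congr 1
      ring
    rw [h1, ← Nat.div_div_eq_div_mul, Nat.add_mul_div_left _ _ (by positivity),
      Nat.div_eq_of_lt hX, zero_add, Nat.add_sub_cancel_left]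

private theorem dg_lt_D5 (b Z i : ℕ) : dg b Z i < 2 ^ b := Nat.mod_lt _ (by positivity)

/-- digits of a multiple of a truncation -/
private theorem mul_D5 (b β v Z : ℕ) (hZ : ∀ i, dg b Z i < 2 ^ β) :
    ∀ l : ℕ, (0 < l → v * 2 ^ β ≤ 2 ^ b) →
      v * (Z % 2 ^ (b * l)) < 2 ^ (b * l) ∧
      ∀ i < l, dg b (v * (Z % 2 ^ (b * l))) i = v * dg b Z i := by
  intro l
  induction l with
  | zero =>
    intro _
    simp [Nat.mod_one]
  | succ l ih =>
    intro hv
    have hv' := hv (Nat.succ_pos l)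
    obtain ⟨ih1, ih2⟩ := ih (fun _ => hv')
    have h1 : v * (Z % 2 ^ (b * (l + 1))) =
        v * (Z % 2 ^ (b * l)) + 2 ^ (b * l) * (v * dg b Z l) := by
      have h2 : (2 : ℕ) ^ (b * (l + 1)) = 2 ^ (b * l) * 2 ^ b := by
        rw [← pow_add]
        congr 1
      rw [h2, Nat.mod_mul]
      unfold dg
      ring
    have h3 : v * dg b Z l < 2 ^ b := by
      rcases Nat.eq_zero_or_pos v with rfl | hv0
      · simp
      · calc v * dg b Z l < v * 2 ^ β := Nat.mul_lt_mul_of_pos_left (hZ l) hv0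
          _ ≤ 2 ^ b := hv'
    constructor
    · rw [h1]
      have h2 : (2 : ℕ) ^ (b * (l + 1)) = 2 ^ (b * l) * 2 ^ b := by
        rw [← pow_add]
        congr 1
      rw [h2]
      calc v * (Z % 2 ^ (b * l)) + 2 ^ (b * l) * (v * dg b Z l)
          < 2 ^ (b * l) + 2 ^ (b * l) * (v * dg b Z l) := by omega
        _ = 2 ^ (b * l) * (v * dg b Z l + 1) := by ring
        _ ≤ 2 ^ (b * l) * 2 ^ b := Nat.mul_le_mul_left _ h3
    · intro i hi
      rw [h1, dg_concat_D5 b l _ _ i ih1]
      by_cases h : i < l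
      · rw [if_pos h, ih2 i h]
      · have hil : i = l := by omega
        subst hil
        rw [if_neg h, Nat.sub_self]
        unfold dg at h3 ⊢
        rw [mul_zero, pow_zero, Nat.div_one]
        exact Nat.mod_eq_of_lt h3

private theorem sv_D5 {α : Type} (x : ℕ) (f : ℕ → α) : sv x f = f x := by
  cases x <;> rfl

private theorem shift_D5 (b l Z i : ℕ) : dg b (Z / 2 ^ (b * l)) i = dg b Z (l + i) := by
  unfold dg
  rw [Nat.div_div_eq_div_mul, ← pow_add, mul_add]

theorem hD5 : StD5 := by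
  intro b β t
  induction t with
  | nil =>
    intro Z _ _ _
    refine ⟨by simp [vm, ln], ?_⟩
    intro S hS
    simp [ln] at hS
  | cons p t ih =>
    intro Z hb hZ ht
    obtain ⟨l, h, v⟩ := p
    have hvm : vm b ((l, h, v) :: t) Z =
        v * (Z % 2 ^ (b * l)) + 2 ^ (b * l) * vm b t (Z / 2 ^ (b * l)) := by
      change v * (Z % 2 ^ (b * l)) + 2 ^ (b * l) * sv (Z / 2 ^ (b * l)) (vm b t) = _
      rw [sv_D5]
    have hln : ln ((l, h, v) :: t) = l + ln t := rfl
    have hlk : ∀ S, lk (fun _ v => v) ((l, h, v) :: t) S =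
        if S < l then v else lk (fun _ v => v) t (S - l) := fun S => rfl
    obtain ⟨h1, h2⟩ := mul_D5 b β v Z hZ l (fun hl => by
      have := ht 0
      rwa [hlk, if_pos hl] at this)
    obtain ⟨h3, h4⟩ := ih (Z / 2 ^ (b * l)) hb (fun i => by rw [shift_D5]; exact hZ _) (fun S => by
      have := ht (l + S)
      rwa [hlk, if_neg (by omega), Nat.add_sub_cancel_left] at this)
    constructor
    · rw [hvm, hln, mul_add, pow_add]
      calc v * (Z % 2 ^ (b * l)) + 2 ^ (b * l) * vm b t (Z / 2 ^ (b * l))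
          < 2 ^ (b * l) + 2 ^ (b * l) * vm b t (Z / 2 ^ (b * l)) := by omega
        _ = 2 ^ (b * l) * (vm b t (Z / 2 ^ (b * l)) + 1) := by ring
        _ ≤ 2 ^ (b * l) * 2 ^ (b * ln t) := Nat.mul_le_mul_left _ h3
    · intro S hS
      rw [hln] at hS
      rw [hvm, hlk, dg_concat_D5 b l _ _ S h1]
      by_cases h : S < l
      · rw [if_pos h, if_pos h, h2 S h]
      · rw [if_neg h, if_neg h, h4 (S - l) (by omega), shift_D5]
        congr 2
        omega

end Pool.Agent.Helper29.H2
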